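import Mathlib

set_option autoImplicit false

open Set MeasureTheory Filter

namespace Pool.Agent.Results.MP_d56d33_an.Lure

/-- The interval `[t₀, T)`, `T ≤ ∞`. -/
def I (t₀ : ℝ) (T : EReal) : Set ℝ := {t | t₀ ≤ t ∧ (t : EReal) < T}

/-- Solutions on `[t₀, T)` of the first-order system `x' = -p₀ x - k φ(q₀ x) + f`. -/
def Sol (p₀ q₀ : ℝ) (k φ f x : ℝ → ℝ) (t₀ : ℝ) (T : EReal) : Prop :=
  (∀ t ∈ I t₀ T, AbsolutelyContinuousOnInterval x t₀ t ∧
    IntervalIntegrable (fun s => φ (q₀ * x s)) volume t₀ t) ∧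
  ∀ᵐ t, t ∈ I t₀ T → HasDerivAt x (-p₀ * x t - k t * φ (q₀ * x t) + f t) t

/-- Exponential stability of the unforced system. -/
def ExpStable (p₀ q₀ : ℝ) (k φ : ℝ → ℝ) : Prop :=
  ∃ ε₁ > 0, ∃ ε₂ > 0, ∀ t₀ ≥ 0, ∀ T x, Sol p₀ q₀ k φ 0 x t₀ T →
    ∀ t ∈ I t₀ T, |x t| ≤ ε₂ * |x t₀| * Real.exp (-ε₁ * (t - t₀))

/-- `L₂`-stability of the forced system. -/
def L2Stable (p₀ q₀ : ℝ) (k φ : ℝ → ℝ) : Prop :=
  ∀ η₁ ≥ 0, ∀ η₂ ≥ 0, ∃ η₃ : ℝ, ∀ t₀ ≥ 0, ∀ T f x, Measurable f →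
    IntegrableOn (fun t => f t ^ 2) (Ioi 0) → ∫ t in Ioi 0, f t ^ 2 < η₂ →
    Sol p₀ q₀ k φ f x t₀ T → |x t₀| < η₁ → ∀ t ∈ I t₀ T, ∫ s in t₀..t, x s ^ 2 ≤ η₃

noncomputable def ph (σ : ℝ) : ℝ := σ + max (-1) (min 1 σ)

lemma sector (σ : ℝ) : σ ^ 2 / √(1 + σ ^ 2) ≤ σ * max (-1) (min 1 σ) ∧
    σ * max (-1) (min 1 σ) ≤ σ ^ 2 := by
  have h0 : 0 < 1 + σ ^ 2 := by positivity
  have h1 : 1 ≤ √(1 + σ ^ 2) := Real.le_sqrt_of_sq_le (by nlinarith [sq_nonneg σ])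
  have h2 : |σ| ≤ √(1 + σ ^ 2) := Real.abs_le_sqrt (by linarith)
  have h3 := abs_le.1 h2
  rw [div_le_iff₀ (by linarith)]
  rcases le_total 1 σ with h | h
  · rw [min_eq_left h, max_eq_right (by norm_num)]
    constructor <;> nlinarith
  · rw [min_eq_right h]
    rcases le_total (-1) σ with h' | h'
    · rw [max_eq_right h']
      constructor <;> nlinarith [sq_nonneg σ]
    · rw [max_eq_left h']
      constructor <;> nlinarith

lemma lip : LipschitzWith 1 fun y : ℝ => √(1 + y ^ 2) := by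
  refine lipschitzWith_of_nnnorm_deriv_le (fun y => ?_) fun y => ?_
  · exact (((differentiableAt_id.pow 2).const_add 1).sqrt (by positivity))
  · have h0 : 0 < 1 + y ^ 2 := by positivity
    have := (((hasDerivAt_id y).pow 2).const_add 1).sqrt h0.ne'
    simp only [id] at this
    have e : deriv (fun y : ℝ => √(1 + y ^ 2)) y = y / √(1 + y ^ 2) := by
      refine (this.congr_deriv ?_).deriv
      simp only [Pi.pow_apply, id]
      field_simp
      norm_num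
    rw [← NNReal.coe_le_coe, coe_nnnorm, e, Real.norm_eq_abs, abs_div,
      abs_of_pos (Real.sqrt_pos.2 h0), NNReal.coe_one, div_le_one (Real.sqrt_pos.2 h0)]
    exact Real.abs_le_sqrt (by linarith)

lemma ac_comp {x : ℝ → ℝ} {a b : ℝ} (hx : AbsolutelyContinuousOnInterval x a b) :
    AbsolutelyContinuousOnInterval (fun s => √(1 + x s ^ 2)) a b := by
  rw [absolutelyContinuousOnInterval_iff] at hx ⊢
  intro ε hε
  obtain ⟨δ, hδ, hδ'⟩ := hx ε hε
  refine ⟨δ, hδ, fun J hJ hJ' => lt_of_le_of_lt (Finset.sum_le_sum fun i _ => ?_) (hδ' J hJ hJ')⟩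
  simpa using lip.dist_le_mul (x (J.2 i).1) (x (J.2 i).2)

lemma energy {f x : ℝ → ℝ} {t₀ η : ℝ} {T : EReal} (h0 : 0 ≤ t₀)
    (hf : IntegrableOn (fun t => f t ^ 2) (Ioi 0)) (hη : ∫ t in Ioi 0, f t ^ 2 < η)
    (hx : Sol (-1) 1 (fun _ => 1) ph f x t₀ T) {t : ℝ} (ht : t ∈ I t₀ T) :
    √(1 + x t ^ 2) + (∫ s in t₀..t, x s ^ 2 / (1 + x s ^ 2)) / 2 ≤ √(1 + x t₀ ^ 2) + η / 2 := by
  have hac := (hx.1 t ht).1
  have hW := ac_comp hac
  have hsub : Ioc t₀ t ⊆ Ioi 0 := fun s hs => lt_of_le_of_lt h0 hs.1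
  have hfi : IntervalIntegrable (fun t => f t ^ 2) volume t₀ t :=
    (intervalIntegrable_iff_integrableOn_Ioc_of_le ht.1).2 (hf.mono_set hsub)
  have hf2 : ∫ s in t₀..t, f s ^ 2 ≤ η := by
    rw [intervalIntegral.integral_of_le ht.1]
    exact (setIntegral_mono_set hf (Eventually.of_forall fun s => sq_nonneg _)
      hsub.eventuallyLE).trans hη.le
  have hc : IntervalIntegrable (fun s => x s ^ 2 / (1 + x s ^ 2)) volume t₀ t :=
    ((hac.continuousOn.pow 2).div ((hac.continuousOn.pow 2).const_add 1)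
      fun s _ => (by positivity : (0 : ℝ) < 1 + x s ^ 2).ne').intervalIntegrable
  have hm : ∫ s in t₀..t, deriv (fun s => √(1 + x s ^ 2)) s ≤
      ∫ s in t₀..t, (f s ^ 2 / 2 - x s ^ 2 / (1 + x s ^ 2) / 2) := by
    refine intervalIntegral.integral_mono_ae_restrict ht.1 hW.intervalIntegrable_deriv
      ((hfi.div_const 2).sub (hc.div_const 2)) ?_
    rw [EventuallyLE, ae_restrict_iff' measurableSet_Icc]
    filter_upwards [hx.2] with s hs hs'
    have hd := hs ⟨hs'.1, lt_of_le_of_lt (EReal.coe_le_coe_iff.2 hs'.2) ht.2⟩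
    have p0 : 0 < 1 + x s ^ 2 := by positivity
    have p1 := Real.sqrt_pos.2 p0
    have p2 := Real.sq_sqrt p0.le
    have hd2 := ((hd.pow 2).const_add 1).sqrt p0.ne'
    have e : deriv (fun s => √(1 + x s ^ 2)) s =
        -(x s * max (-1) (min 1 (x s))) / √(1 + x s ^ 2) + x s / √(1 + x s ^ 2) * f s := by
      refine (hd2.congr_deriv ?_).deriv
      simp only [Pi.pow_apply, ph, one_mul]
      field_simp
      norm_num
      exact Or.inl (mul_comm _ _)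
    rw [e]
    have a1 : x s ^ 2 / (1 + x s ^ 2) = (x s / √(1 + x s ^ 2)) ^ 2 := by rw [div_pow, p2]
    have a2 : (x s / √(1 + x s ^ 2)) ^ 2 ≤ x s * max (-1) (min 1 (x s)) / √(1 + x s ^ 2) := by
      refine le_trans (le_of_eq ?_) (div_le_div_of_nonneg_right (sector (x s)).1 p1.le)
      rw [div_pow, div_div, sq (√_)]
    rw [a1, neg_div]
    nlinarith [sq_nonneg (x s / √(1 + x s ^ 2) - f s)]
  rw [hW.integral_deriv_eq_sub, intervalIntegral.integral_sub (hfi.div_const 2) (hc.div_const 2),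
    intervalIntegral.integral_div, intervalIntegral.integral_div] at hm
  linarith

lemma l2 : L2Stable (-1) 1 (fun _ => 1) ph := by
  intro η₁ h1 η₂ h2
  refine ⟨(1 + η₁ + η₂ / 2) ^ 2 * (2 * (1 + η₁ + η₂ / 2)), fun t₀ h0 T f x _ hf hη hx hx0 t ht => ?_⟩
  set R := 1 + η₁ + η₂ / 2 with hR
  have b0 : √(1 + x t₀ ^ 2) ≤ 1 + η₁ := by
    refine Real.sqrt_le_iff.2 ⟨by linarith, ?_⟩
    have := sq_lt_sq' (abs_lt.1 hx0).1 (abs_lt.1 hx0).2
    nlinarith
  have b1 : ∀ s ∈ Icc t₀ t, 1 + x s ^ 2 ≤ R ^ 2 := by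
    intro s hs
    have := energy h0 hf hη hx (t := s) ⟨hs.1, lt_of_le_of_lt (EReal.coe_le_coe_iff.2 hs.2) ht.2⟩
    have a : 0 ≤ ∫ r in t₀..s, x r ^ 2 / (1 + x r ^ 2) :=
      intervalIntegral.integral_nonneg hs.1 fun r _ => by positivity
    exact (Real.sqrt_le_iff.1 (by linarith : √(1 + x s ^ 2) ≤ R)).2
  have b2 := energy h0 hf hη hx ht
  have hac := (hx.1 t ht).1
  have hc : IntervalIntegrable (fun s => x s ^ 2 / (1 + x s ^ 2)) volume t₀ t :=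
    ((hac.continuousOn.pow 2).div ((hac.continuousOn.pow 2).const_add 1)
      fun s _ => (by positivity : (0 : ℝ) < 1 + x s ^ 2).ne').intervalIntegrable
  have b3 : ∫ s in t₀..t, x s ^ 2 ≤ ∫ s in t₀..t, R ^ 2 * (x s ^ 2 / (1 + x s ^ 2)) := by
    refine intervalIntegral.integral_mono_on ht.1 (hac.continuousOn.pow 2).intervalIntegrable
      (hc.const_mul _) fun s hs => ?_
    rw [← mul_div_assoc, le_div_iff₀ (by positivity)]
    nlinarith [b1 s hs, sq_nonneg (x s)]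
  rw [intervalIntegral.integral_const_mul] at b3
  refine b3.trans (mul_le_mul_of_nonneg_left ?_ (sq_nonneg _))
  linarith [Real.sqrt_nonneg (1 + x t ^ 2)]

lemma notexp : ¬ ExpStable (-1) 1 (fun _ => 1) ph := by
  rintro ⟨ε₁, h1, ε₂, h2, h⟩
  set X := 4 * ε₂ / ε₁ + 4 with hX
  have X0 : 0 < 4 * ε₂ / ε₁ := by positivity
  have hc : Continuous ph := by unfold ph; fun_prop
  have := h 0 le_rfl ((X - 1 : ℝ) : EReal) (fun t => X - t) ⟨fun t _ => ⟨?_, ?_⟩,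
    Eventually.of_forall fun t ht => ?_⟩ (X / 2) ⟨by linarith, EReal.coe_lt_coe_iff.2 (by linarith)⟩
  · simp only [sub_zero, neg_mul, Real.exp_neg] at this
    rw [abs_of_pos (by linarith), abs_of_pos (by linarith), ← div_eq_mul_inv,
      le_div_iff₀ (Real.exp_pos _)] at this
    have a1 := Real.add_one_le_exp (ε₁ * (X / 2))
    have a2 : ε₁ * (X / 2) = 2 * ε₂ + 2 * ε₁ := by rw [hX]; field_simp; ring
    nlinarith
  · exact (contDiff_const.sub contDiff_id).contDiffOn.absolutelyContinuousOnInterval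
  · exact (hc.comp (by fun_prop)).intervalIntegrable _ _
  · have h3 : t < X - 1 := EReal.coe_lt_coe_iff.1 ht.2
    refine ((hasDerivAt_id t).const_sub X).congr_deriv ?_
    simp only [ph, one_mul, Pi.zero_apply]
    rw [min_eq_left (by linarith), max_eq_right (by norm_num)]
    ring

theorem result : ∃ (p₀ q₀ : ℝ) (k φ : ℝ → ℝ), (∃ ε > 0, ∀ t, ε ≤ k t) ∧
    (∀ T, AbsolutelyContinuousOnInterval k 0 T) ∧ φ 0 = 0 ∧ Continuous φ ∧
    (∃ η₁ η₂ : ℝ, 0 < η₁ ∧ η₁ < η₂ ∧ ∀ σ, η₁ * σ ^ 2 ≤ σ * φ σ ∧ σ * φ σ ≤ η₂ * σ ^ 2) ∧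
    L2Stable p₀ q₀ k φ ∧ ¬ ExpStable p₀ q₀ k φ := by
  refine ⟨-1, 1, fun _ => 1, ph, ⟨1, one_pos, fun _ => le_rfl⟩,
    fun T => contDiff_const.contDiffOn.absolutelyContinuousOnInterval, by simp [ph],
    by unfold ph; fun_prop, ⟨1, 2, one_pos, by norm_num, fun σ => ?_⟩, l2, notexp⟩
  have h := sector σ
  have : 0 ≤ σ ^ 2 / √(1 + σ ^ 2) := by positivity
  unfold ph
  constructor <;> nlinarith

end Pool.Agent.Results.MP_d56d33_an.Lure
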